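import Pool.Agent.Y36.EG.Base

set_option autoImplicit false

namespace Pool.Agent.Results.MP_d69e80_al.ClassDecay

open Pool.Agent.Y36.EG
open Real Subgroup Filter Topology
open scoped Pointwise

/-- `c` is a valid constant in the question for derived length at most `r` : it is positive, and
every finite generating set `S` of a group `G` with `G^(r) = 1`, with growth rate `ρ`, has either
`ρ = 0` and `G` virtually nilpotent, or `c < ρ`. -/
def GapConstant (r : ℕ) (c : ℝ) : Prop :=
  0 < c ∧ ∀ (G : Type) [Group G] (S : Set G) (ρ : ℝ), S.Finite → closure S = ⊤ →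
    derivedSeries G r = ⊥ →
    Tendsto (fun n : ℕ => Real.log (Nat.card ↥(S ^ n)) / n) atTop (𝓝 ρ) →
    (ρ = 0 ∧ ∃ H : Subgroup G, H.FiniteIndex ∧ Group.IsNilpotent ↥H) ∨ c < ρ

section rate

variable (M : Mk)

lemma card_pos' (m : ℕ) : 0 < Nat.card ↥(M.S ^ m) := by
  have : Finite ↥(M.S ^ m) := (Mk.pow_finite m).to_subtype
  have : Nonempty ↥(M.S ^ m) := ⟨⟨1, Mk.pow_mono (Nat.zero_le m) (by rw [pow_zero]; rfl)⟩⟩
  exact Nat.card_pos

lemma subadd : Subadditive (fun n : ℕ => Real.log (Nat.card ↥(M.S ^ n))) := by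
  intro m n
  have h : Nat.card ↥(M.S ^ (m + n)) ≤ Nat.card ↥(M.S ^ m) * Nat.card ↥(M.S ^ n) := by
    rw [pow_add]
    exact Set.natCard_mul_le
  show Real.log (Nat.card ↥(M.S ^ (m + n))) ≤
    Real.log (Nat.card ↥(M.S ^ m)) + Real.log (Nat.card ↥(M.S ^ n))
  rw [← Real.log_mul (by exact_mod_cast (card_pos' M m).ne')
    (by exact_mod_cast (card_pos' M n).ne')]
  apply Real.log_le_log (by exact_mod_cast card_pos' M (m + n))
  exact_mod_cast h

lemma tendsto_rate : Tendsto (fun n : ℕ => Real.log (Nat.card ↥(M.S ^ n)) / n) atTop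
    (𝓝 (subadd M).lim) :=
  (subadd M).tendsto_lim (by
    refine ⟨0, ?_⟩
    rintro _ ⟨n, rfl⟩
    exact div_nonneg (Real.log_natCast_nonneg _) (Nat.cast_nonneg n))

lemma rate_le {l C : ℝ} (hl : 0 ≤ l) (h : M.PB l C) : (subadd M).lim ≤ 8 * l := by
  have h1 : ∀ m : ℕ, (1 : ℝ) ≤ Nat.card ↥(M.S ^ m) := by
    intro m
    exact_mod_cast card_pos' M m
  have hC : 0 < C := by
    have h2 := Mk.card_le hl h 0
    have h3 := h1 0
    have h4 : (0 : ℝ) < C * exp (8 * l * (0 : ℕ)) := by linarith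
    exact (pos_iff_pos_of_mul_pos h4).mpr (exp_pos _)
  have h2 : Tendsto (fun n : ℕ => Real.log C * (1 / (n : ℝ)) + 8 * l) atTop
      (𝓝 (Real.log C * 0 + 8 * l)) :=
    (tendsto_one_div_atTop_nhds_zero_nat.const_mul _).add_const _
  rw [mul_zero, zero_add] at h2
  refine le_of_tendsto_of_tendsto (tendsto_rate M) h2 ?_
  filter_upwards [eventually_gt_atTop 0] with n hn
  have hn' : (0 : ℝ) < n := by exact_mod_cast hn
  have h3 := Mk.card_le hl h n
  have h4 : Real.log (Nat.card ↥(M.S ^ n)) ≤ Real.log C + 8 * l * n := by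
    have := Real.log_le_log (by linarith [h1 n]) h3
    rwa [Real.log_mul hC.ne' (exp_pos _).ne', Real.log_exp] at this
  rw [div_le_iff₀ hn']
  refine h4.trans (le_of_eq ?_)
  field_simp

lemma rate_pos (h : M.Free2) : 0 < (subadd M).lim := by
  obtain ⟨j, hj, hk⟩ := Mk.card_ge h
  have hj' : (0 : ℝ) < j := by exact_mod_cast hj
  have h1 : Tendsto (fun k : ℕ => j * k) atTop atTop :=
    tendsto_id.const_mul_atTop' hj
  have h2 := (tendsto_rate M).comp h1
  have h3 : Real.log 2 / j ≤ (subadd M).lim := by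
    refine ge_of_tendsto h2 ?_
    filter_upwards [eventually_gt_atTop 0] with k hk0
    have hk' : (0 : ℝ) < k := by exact_mod_cast hk0
    have h4 : Real.log ((2 : ℝ) ^ k) ≤ Real.log (Nat.card ↥(M.S ^ (j * k))) := by
      apply Real.log_le_log (by positivity)
      exact_mod_cast hk k
    rw [Real.log_pow] at h4
    simp only [Function.comp]
    rw [div_le_div_iff₀ hj' (by push_cast; positivity)]
    push_cast
    nlinarith
  have h4 : 0 < Real.log 2 / j := div_pos (Real.log_pos (by norm_num)) hj'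
  linarith

end rate

/-- the tower -/
def tow : ℕ → Mk
  | 0 => base
  | n + 1 => (tow n).next

lemma tow_derived (n : ℕ) : derivedSeries (tow n).G (n + 3) = ⊥ := by
  induction n with
  | zero => exact base_derived
  | succ n ih => exact derived_wr_bot ih

lemma tow_free2 (n : ℕ) : (tow n).Free2 := by
  induction n with
  | zero => exact base_free2
  | succ n ih => exact Mk.free2_next ih

/-- the starting exponent -/
noncomputable def l0 : ℝ := Real.log 2 / 5

lemma l0_pos : 0 < l0 := div_pos (Real.log_pos (by norm_num)) (by norm_num)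

lemma q_lt : ∑ x : K4, exp (-l0) ^ (7 + wt x) < 1 := by
  set u := exp (-l0) with hu
  have hu0 : 0 < u := exp_pos _
  have hu5 : u ^ 5 = 1 / 2 := by
    rw [hu, ← exp_nat_mul, l0]
    have : ((5 : ℕ) : ℝ) * -(Real.log 2 / 5) = - Real.log 2 := by
      push_cast
      ring
    rw [this, exp_neg, Real.exp_log (by norm_num)]
    norm_num
  have hsum : ∑ x : K4, u ^ (7 + wt x) = u ^ 7 + u ^ 15 + u ^ 12 + u ^ 10 := by
    have hU : (Finset.univ : Finset K4) = {(1, 1), (gg, 1), (1, gg), (gg, gg)} := by decide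
    have e1 : wt (1, 1) = 0 := by decide
    have e2 : wt (gg, 1) = 8 := by decide
    have e3 : wt (1, gg) = 5 := by decide
    have e4 : wt (gg, gg) = 3 := by decide
    rw [hU, Finset.sum_insert (by decide), Finset.sum_insert (by decide),
      Finset.sum_insert (by decide), Finset.sum_singleton, e1, e2, e3, e4]
    ring
  rw [hsum]
  have h1 : u ^ 2 < 5 / 6 := by
    by_contra hcon
    push Not at hcon
    have h2 : ((5 : ℝ) / 6) ^ 5 ≤ (u ^ 2) ^ 5 := pow_le_pow_left₀ (by norm_num) hcon 5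
    have h3 : (u ^ 2) ^ 5 = 1 / 4 := by
      calc (u ^ 2) ^ 5 = (u ^ 5) ^ 2 := by ring
        _ = 1 / 4 := by rw [hu5]; norm_num
    rw [h3] at h2
    norm_num at h2
  have e1 : u ^ 7 = u ^ 5 * u ^ 2 := by ring
  have e2 : u ^ 15 = (u ^ 5) ^ 3 := by ring
  have e3 : u ^ 12 = (u ^ 5) ^ 2 * u ^ 2 := by ring
  have e4 : u ^ 10 = (u ^ 5) ^ 2 := by ring
  rw [e1, e2, e3, e4, hu5]
  linarith

lemma tow_pb (n : ℕ) : ∃ C, (tow n).PB ((5 / 6) ^ n * l0) C := by
  induction n with
  | zero =>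
    rw [pow_zero, one_mul]
    exact ⟨_, Mk.pb_zero l0 l0_pos.le q_lt⟩
  | succ n ih =>
    obtain ⟨C, hC⟩ := ih
    refine ⟨2 * (exp (35 / 6 * ((5 / 6) ^ n * l0)) * (C * C)), ?_⟩
    have h := Mk.pb_next (by have := l0_pos; positivity) hC
    rw [pow_succ', mul_assoc]
    exact h

lemma log_two_bound : 8 * ((Real.log 2) / 5) ≤ 2 * (5 / 6) ^ 3 := by
  have := Real.log_two_lt_d9
  norm_num
  linarith

/-- growth rate of the `n`-th group of the tower -/
lemma tow_rate (n : ℕ) : (subadd (tow n)).lim ≤ 2 * (5 / 6) ^ (n + 3) := by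
  obtain ⟨C, hC⟩ := tow_pb n
  have h1 := rate_le (tow n) (by have := l0_pos; positivity) hC
  refine h1.trans ?_
  have h2 := mul_le_mul_of_nonneg_left log_two_bound (by positivity : (0 : ℝ) ≤ (5 / 6) ^ n)
  rw [pow_add]
  calc 8 * ((5 / 6) ^ n * l0) = (5 / 6) ^ n * (8 * (Real.log 2 / 5)) := by rw [l0]; ring
    _ ≤ _ := h2
    _ = _ := by ring

/-- examples -/
lemma examples (r : ℕ) (hr : 3 ≤ r) : ∃ (G : Type) (_ : Group G) (S : Set G) (ρ : ℝ),
    S.Finite ∧ closure S = ⊤ ∧ derivedSeries G r = ⊥ ∧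
    Tendsto (fun n : ℕ => Real.log (Nat.card ↥(S ^ n)) / n) atTop (𝓝 ρ) ∧
    0 < ρ ∧ ρ ≤ 2 * (5 / 6) ^ r := by
  obtain ⟨n, rfl⟩ : ∃ n, r = n + 3 := ⟨r - 3, by omega⟩
  set M := tow n with hM
  have himg : (closure M.S).subtype '' ((closure M.S).subtype ⁻¹' M.S) = M.S := by
    rw [Set.image_preimage_eq_inter_range]
    refine Set.inter_eq_left.mpr ?_
    intro x hx
    exact ⟨⟨x, subset_closure hx⟩, rfl⟩
  refine ⟨↥(closure M.S), inferInstance, (closure M.S).subtype ⁻¹' M.S, (subadd M).lim,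
    ?_, ?_, ?_, ?_,
    rate_pos M (tow_free2 n), tow_rate n⟩
  · exact Mk.S_finite.preimage Subtype.val_injective.injOn
  · exact Subgroup.closure_closure_coe_preimage
  · have h := map_derivedSeries_le_derivedSeries (closure M.S).subtype (n + 3)
    rw [tow_derived n, le_bot_iff] at h
    exact (Subgroup.map_eq_bot_iff_of_injective _ (Subgroup.subtype_injective _)).mp h
  · refine (tendsto_rate M).congr (fun m => ?_)
    have h1 : (closure M.S).subtype '' (((closure M.S).subtype ⁻¹' M.S) ^ m) = M.S ^ m := by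
      rw [Set.image_pow, himg]
    rw [← h1, Nat.card_image_of_injective (Subgroup.subtype_injective _)]

/-- Exponential decay of the uniform growth gap : for every `r ≥ 3` there is a group `G` of derived
length at most `r` with a finite generating set `S` whose growth rate `ρ` satisfies
`0 < ρ ≤ 2 (5/6)^r`; every constant `c` valid in the question for derived length `r` is less than
this `ρ`. -/
theorem result (r : ℕ) (hr : 3 ≤ r) :
    ∃ (G : Type) (_ : Group G) (S : Set G) (ρ : ℝ),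
      S.Finite ∧ closure S = ⊤ ∧ derivedSeries G r = ⊥ ∧
      Tendsto (fun n : ℕ => Real.log (Nat.card ↥(S ^ n)) / n) atTop (𝓝 ρ) ∧
      0 < ρ ∧ ρ ≤ 2 * (5 / 6) ^ r ∧ ∀ c : ℝ, GapConstant r c → c < ρ := by
  obtain ⟨G, inst, S, ρ, h1, h2, h3, h4, h5, h6⟩ := examples r hr
  refine ⟨G, inst, S, ρ, h1, h2, h3, h4, h5, h6, ?_⟩
  rintro c ⟨_, hc⟩
  rcases hc G S ρ h1 h2 h3 h4 with h | h
  · exact absurd h.1 h5.ne'
  · exact h

end Pool.Agent.Results.MP_d69e80_al.ClassDecay
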