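import Mathlib
import Pool.Agent.Y552.CP.Fin

/-!
# Uniform growth of solvable groups whose derived factors have bounded rank

The growth gap holds, unconditionally, for all solvable groups (of any derived length) all of whose
derived factors have torsion-free rank at most `m` and finite torsion; the gap depends on `m` only,
and is at least `c / (m (log 2m) ^ 3)` for derived length at most three.
-/

set_option autoImplicit false

namespace Pool.Agent.Results.MP_d69e80_al.DerivedFactorRanks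

open Filter Topology Polynomial
open scoped Pointwise

universe u

/-- All factors `G^{(i)} / G^{(i+1)}`, `i ≥ j`, of the derived series of `G` have torsion-free rank
at most `m` and a finite torsion subgroup. -/
def BoundedFactors (G : Type u) [Group G] (j m : ℕ) : Prop :=
  ∀ i, j ≤ i → Module.rank ℤ (Additive (Abelianization (derivedSeries G i))) ≤ (m : Cardinal.{u}) ∧
    {b : Additive (Abelianization (derivedSeries G i)) | ∃ n : ℕ, 0 < n ∧ n • b = 0}.Finite

/-- The minimum of `m ^ 21` and `m ^ (⌊log₂ m⌋ + 3)`. -/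
def J (m : ℕ) : ℕ := min (m ^ 21) (m ^ (Nat.log 2 m + 3))

/-- The Mahler measure of (the minimal polynomial over `ℤ` of) an algebraic integer. -/
noncomputable def mahler (x : ℂ) : ℝ := ((minpoly ℤ x).map (Int.castRingHom ℂ)).mahlerMeasure

/-- `x` is an algebraic unit and not a root of unity. -/
def UnitNotRoot (x : ℂ) : Prop :=
  x ≠ 0 ∧ IsIntegral ℤ x ∧ IsIntegral ℤ x⁻¹ ∧ ∀ n > 0, x ^ n ≠ 1

/-- Let `S` be a finite generating set of a group `G`, and `H` a solvable subgroup of index at most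
`q`, of derived length at most `r`.  Let `m ≥ 1` and let `D ≥ J m = min (m ^ 21, m ^ (⌊log₂ m⌋ + 3))`, or `D ≥ m`
if `r ≤ 3`.  Suppose that `H^{(i)} / H^{(i+1)}` has torsion-free rank at most `m` and finite torsion
for all `i ≥ 2`.  Then `ρ_S` exists and either `G` is virtually nilpotent, or
(1) `ρ_S ≥ log 2 / (4 (2 D - 1) (2 q - 1))`, or
`ρ_S ≥ min (1, log M(x)) / (32 (2 D - 1) (2 q - 1))` for an algebraic unit `x` which is not a root of
unity; and
(2) if moreover `H' / H''` has torsion-free rank at most `m` and finite torsion then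
`ρ_S ≥ c / (D q (log (2 m)) ^ 3)`, with an absolute constant `c > 0`. -/
theorem result :
    ∃ c : ℝ, 0 < c ∧
      ∀ (G : Type u) [Group G] (S : Set G) (H : Subgroup G) (q r m D : ℕ), S.Finite →
      Subgroup.closure S = ⊤ → H.index ≠ 0 → H.index ≤ q → derivedSeries H r = ⊥ → 1 ≤ m →
      (J m ≤ D ∨ (m ≤ D ∧ r ≤ 3)) → BoundedFactors H 2 m →
      ∃ ρ : ℝ, Tendsto (fun n : ℕ => Real.log (Nat.card ↥(S ^ n)) / n) atTop (𝓝 ρ) ∧
        (Group.IsVirtuallyNilpotent G ∨
          (Real.log 2 / (4 * ((2 * D - 1) * (2 * q - 1))) ≤ ρ ∨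
            ∃ x : ℂ, UnitNotRoot x ∧
              min 1 (Real.log (mahler x)) / (32 * ((2 * D - 1) * (2 * q - 1))) ≤ ρ) ∧
          (BoundedFactors H 1 m → c / (D * q * Real.log (2 * m) ^ 3) ≤ ρ)) := by
  obtain ⟨c, hc, h⟩ := Y552.CP.unc
  refine ⟨c, hc, ?_⟩
  intro G _ S H q r m D hfin hgen hH0 hHq hsol hm hD hb
  refine ⟨H746UG.rho S, H746UG.tendsto_rho S, ?_⟩
  have hD1 : 1 ≤ D := by
    rcases hD with hD | hD
    · exact (Y552.CP.Jp_pos hm).trans hD
    · exact hm.trans hD.1
  have hq1 : 1 ≤ q := by omega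
  have hA : 0 < (2 * (D : ℝ) - 1) * (2 * q - 1) := by
    have h1 : (1 : ℝ) ≤ D := by exact_mod_cast hD1
    have h2 : (1 : ℝ) ≤ q := by exact_mod_cast hq1
    apply mul_pos <;> linarith
  have key : Group.IsVirtuallyNilpotent G ∨
      Real.log 2 / (4 * ((2 * D - 1) * (2 * q - 1))) ≤ H746UG.rho S ∨
      ∃ x : ℂ, UnitNotRoot x ∧ (BoundedFactors H 1 m → (minpoly ℤ x).natDegree ≤ m) ∧
        min 1 (Real.log (mahler x)) / (32 * ((2 * D - 1) * (2 * q - 1))) ≤
          H746UG.rho S := by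
    rcases Y552.CP.der1 Y552.CP.eig3 hm hD1 S hfin hgen H hH0 hHq hsol (fun i hi => (hb i hi).1)
      (fun i hi => (hb i hi).2) hD with h | h | ⟨x, h0, h1, h2, h3, h4, h5⟩
    · exact Or.inl h
    · refine Or.inr (Or.inl ?_)
      rw [← mul_assoc]
      exact h
    · refine Or.inr (Or.inr ⟨x, ⟨h0, h1, h2, h3⟩, fun hb1 => h4 (hb1 1 le_rfl), ?_⟩)
      rw [mul_assoc] at h5
      exact Y552.CP.mahler_of h1 hA h5
  rcases key with h1 | h1 | ⟨x, h2, h3, h4⟩
  · exact Or.inl h1
  · exact Or.inr ⟨Or.inl h1, fun _ => h m D q _ hm hD1 hq1 (Or.inl h1)⟩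
  · exact Or.inr ⟨Or.inr ⟨x, h2, h4⟩, fun hb1 => h m D q _ hm hD1 hq1
      (Or.inr ⟨x, h2.1, h2.2.1, h2.2.2.2, h3 hb1, h4⟩)⟩

end Pool.Agent.Results.MP_d69e80_al.DerivedFactorRanks
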