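import Mathlib
import Pool.Agent.Y552.CP.Fin
import Pool.Agent.Y552.CT.Up

/-!
# Uniform growth of solvable linear groups

For solvable subgroups of `GL_d` over a number field the gap for the growth is polynomial in the
degree `d`: it is at least `d ^ (-42)` up to a power of `log d`, and at most `2 d ^ (-1/4)`.
-/

set_option autoImplicit false

namespace Pool.Agent.Results.MP_d69e80_al.LinearSolvable

open Filter Topology Polynomial Matrix
open scoped Pointwise

universe u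

/-- The minimum of `d ^ 42` and `(d ^ 2) ^ (⌊log₂ (d ^ 2)⌋ + 3)`. -/
def J (d : ℕ) : ℕ := min (d ^ 42) ((d ^ 2) ^ (Nat.log 2 (d ^ 2) + 3))

/-- The Mahler measure of (the minimal polynomial over `ℤ` of) an algebraic integer. -/
noncomputable def mahler (x : ℂ) : ℝ := ((minpoly ℤ x).map (Int.castRingHom ℂ)).mahlerMeasure

/-- `x` is an algebraic unit and not a root of unity. -/
def UnitNotRoot (x : ℂ) : Prop :=
  x ≠ 0 ∧ IsIntegral ℤ x ∧ IsIntegral ℤ x⁻¹ ∧ ∀ n > 0, x ^ n ≠ 1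

/-- `ρ` is the exponential growth rate `ρ_S = lim (1/n) log |S ^ n|` of `S`. -/
def HasRate {G : Type u} [Group G] (S : Set G) (ρ : ℝ) : Prop :=
  Tendsto (fun n : ℕ => Real.log (Nat.card ↥(S ^ n)) / n) atTop (𝓝 ρ)

/-- The group `⟨S⟩` is virtually nilpotent. -/
def VirtNilp {G : Type u} [Group G] (S : Set G) : Prop :=
  Group.IsVirtuallyNilpotent (Subgroup.closure S)

/-- The group `⟨S⟩` has a solvable subgroup of finite index at most `q`. -/
def SolvIndex {G : Type u} [Group G] (S : Set G) (q : ℕ) : Prop :=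
  ∃ H : Subgroup (Subgroup.closure S), Group.IsSolvable H ∧ H.index ≠ 0 ∧ H.index ≤ q

/-- `α` is an eigenvalue of the complex matrix `A`. -/
def Eigen {d : ℕ} (A : Matrix (Fin d) (Fin d) ℂ) (α : ℂ) : Prop :=
  ∃ v : Fin d → ℂ, v ≠ 0 ∧ A *ᵥ v = α • v

/-- `x` is the quotient of two complex eigenvalues of `σ(g)`, for some `g` in `⟨S⟩`. -/
def EigenRatio {K : Type u} [Field K] (σ : K →+* ℂ) {d : ℕ} (S : Set (GL (Fin d) K)) (x : ℂ) :
    Prop :=
  ∃ g ∈ Subgroup.closure S, ∃ α β : ℂ, Eigen ((g : Matrix (Fin d) (Fin d) K).map σ) α ∧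
    Eigen ((g : Matrix (Fin d) (Fin d) K).map σ) β ∧ x = α / β

/-- Either `ρ ≥ log 2 / (4 e)` or `ρ ≥ min (1, log M(x)) / (32 e)` for some algebraic unit `x`, not a
root of unity, which satisfies `P`. -/
def MahlerBound (P : ℂ → Prop) (e ρ : ℝ) : Prop :=
  Real.log 2 / (4 * e) ≤ ρ ∨
    ∃ x : ℂ, P x ∧ UnitNotRoot x ∧ min 1 (Real.log (mahler x)) / (32 * e) ≤ ρ

/-- There is a finite subset `S` of `GL_d(ℚ)` such that `⟨S⟩` is solvable and
`0 < ρ_S ≤ 2 d ^ (-1/4)`. -/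
def SmallGrowth (d : ℕ) : Prop :=
  ∃ S : Set (GL (Fin d) ℚ), S.Finite ∧ SolvIndex S 1 ∧
    ∃ ρ : ℝ, HasRate S ρ ∧ 0 < ρ ∧ ρ ≤ 2 * (d : ℝ) ^ (-(1 / 4) : ℝ)

/-- (I) Let `K` be a field with an embedding `σ` in `ℂ` and `S` a finite subset of `GL_d(K)` such
that the group `⟨S⟩` has a solvable subgroup of index at most `q`.  Put
`J = J d = min (d ^ 42, (d ^ 2) ^ (⌊log₂ (d ^ 2)⌋ + 3))`.  Then `ρ_S` exists and either `⟨S⟩` is
virtually nilpotent, or
(1) `ρ_S ≥ log 2 / (4 (2 J - 1) (2 q - 1))`, or there are an element `g` of `⟨S⟩` and eigenvalues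
`α`, `β` of `σ(g)` such that `α / β` is an algebraic unit, not a root of unity, and
`ρ_S ≥ min (1, log M(α / β)) / (32 (2 J - 1) (2 q - 1))`; and
(2) if `K` is a number field then `ρ_S ≥ c / (J q (log (2 [K : ℚ] d ^ 2)) ^ 3)`, with an absolute
constant `c > 0`.
(II) For every `d ≥ 4` there is a finite subset `S` of `GL_d(ℚ)` such that `⟨S⟩` is solvable and
`0 < ρ_S ≤ 2 d ^ (-1/4)`.
So the gap for the growth of the solvable subgroups of `GL_d(ℚ)` is polynomial in `d`. -/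
theorem result :
    (∃ c : ℝ, 0 < c ∧ ∀ (K : Type u) [Field K] (σ : K →+* ℂ) (d q : ℕ) (S : Set (GL (Fin d) K)),
      S.Finite → SolvIndex S q →
      ∃ ρ : ℝ, HasRate S ρ ∧
        (VirtNilp S ∨
          MahlerBound (EigenRatio σ S) ((2 * J d - 1) * (2 * q - 1)) ρ ∧
          (∀ [NumberField K],
            c / (J d * q * Real.log (2 * (Module.finrank ℚ K * d ^ 2)) ^ 3) ≤ ρ))) ∧
    ∀ d : ℕ, 4 ≤ d → SmallGrowth d := by
  refine ⟨?_, ?_⟩
  swap
  · intro d hd
    obtain ⟨S, hfin, hsol, h1, h2⟩ := Y552.CT.upper d hd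
    refine ⟨S, hfin, ⟨⊤, ?_, ?_, ?_⟩, H746UG.rho S, H746UG.tendsto_rho S, h1, h2⟩
    · infer_instance
    · rw [Subgroup.index_top]; exact one_ne_zero
    · rw [Subgroup.index_top]
  obtain ⟨c, hc, hunc⟩ := Y552.CP.unc
  refine ⟨c, hc, ?_⟩
  rintro K _ σ d q S hfin ⟨H, hsol, hH0, hHq⟩
  refine ⟨H746UG.rho S, H746UG.tendsto_rho S, ?_⟩
  have hJe : Y552.CP.Jp (d ^ 2) = J d := by
    unfold Y552.CP.Jp Y552.CT.Jb J
    rw [← pow_mul]
  have hmain := Y552.CP.gl_main σ d Y552.CP.eig3 S hfin H hsol hH0 hHq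
  rw [hJe] at hmain
  rcases hmain with h | ⟨hd, h⟩
  · exact Or.inl h
  right
  have hJ : 1 ≤ J d := by
    rw [← hJe]
    exact Y552.CP.Jp_pos (Nat.one_le_iff_ne_zero.2 (pow_ne_zero _ (by omega)))
  have hq : 1 ≤ q := by omega
  have hA : 0 < (2 * (J d : ℝ) - 1) * (2 * q - 1) := by
    have h1 : (1 : ℝ) ≤ J d := by exact_mod_cast hJ
    have h2 : (1 : ℝ) ≤ q := by exact_mod_cast hq
    apply mul_pos <;> linarith
  refine ⟨?_, ?_⟩
  · rcases h with h | ⟨g, hg, α, β, hα, hβ, h0, h1, h2, h3, h4⟩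
    · left
      rw [← mul_assoc]
      exact h
    · right
      have hα' : Eigen ((g : Matrix (Fin d) (Fin d) K).map σ) α := by
        obtain ⟨v, hv⟩ := hα.exists_hasEigenvector
        exact ⟨v, hv.2, hv.apply_eq_smul⟩
      have hβ' : Eigen ((g : Matrix (Fin d) (Fin d) K).map σ) β⁻¹ := by
        obtain ⟨v, hv⟩ := hβ.exists_hasEigenvector
        have hβ0 : β ≠ 0 := (mul_ne_zero_iff.1 h0).2
        refine ⟨v, hv.2, ?_⟩
        have h5 := hv.apply_eq_smul
        have h6 : Matrix.toLin' ((g : Matrix (Fin d) (Fin d) K).map σ)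
            (Matrix.toLin' (((g⁻¹ : GL (Fin d) K) : Matrix (Fin d) (Fin d) K).map σ) v) = v := by
          rw [← LinearMap.comp_apply, ← Matrix.toLin'_mul, ← Matrix.map_mul, ← Units.val_mul,
            mul_inv_cancel, Units.val_one, Matrix.map_one _ (map_zero σ) (map_one σ),
            Matrix.toLin'_one, LinearMap.id_apply]
        rw [h5, map_smul] at h6
        have h7 : Matrix.toLin' ((g : Matrix (Fin d) (Fin d) K).map σ) v = β⁻¹ • v := by
          rw [← h6, smul_smul, inv_mul_cancel₀ hβ0, one_smul, h6]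
        exact h7
      have e : α / β⁻¹ = α * β := by rw [div_inv_eq_mul]
      refine ⟨α * β, ⟨g, hg, α, β⁻¹, hα', hβ', e.symm⟩, ⟨h0, h1, h2, h3⟩, ?_⟩
      rw [mul_assoc] at h4
      exact Y552.CP.mahler_of h1 hA h4
  · intro _
    have hn : 1 ≤ Module.finrank ℚ K * d ^ 2 :=
      Nat.mul_pos Module.finrank_pos (pow_pos (by omega) 2)
    have h5 := hunc (Module.finrank ℚ K * d ^ 2) (J d) q (H746UG.rho S) hn hJ hq (by
      rcases h with h | ⟨g, hg, α, β, hα, hβ, h0, h1, h2, h3, h4⟩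
      · left
        rw [← mul_assoc]
        exact h
      · right
        refine ⟨α * β, h0, h1, h3, ?_, ?_⟩
        · obtain ⟨P, hP0, hPd, hP⟩ := Y455.CT.nf K σ d _ _ α β hα hβ
          exact (natDegree_le_of_dvd (minpoly.isIntegrallyClosed_dvd h1 hP) hP0).trans hPd
        · rw [mul_assoc] at h4
          exact Y552.CP.mahler_of h1 hA h4)
    push_cast at h5
    exact h5

end Pool.Agent.Results.MP_d69e80_al.LinearSolvable
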