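import Mathlib
import Pool.Agent.Y730.UG.Gen
import Pool.Agent.Y730.UG.Tri2

set_option autoImplicit false

/-!
# Uniform growth gap when the eigenvalues lie in fields generated by radicals and roots of unity

Subfields of `AlgebraicClosure ℚ` are used; `ι` is an embedding of this field into `ℂ`.
-/

namespace Pool.Agent.Results.MP_d69e80_al.RadicalEigenvalues

open Filter Topology Polynomial
open scoped Pointwise commutatorElement TensorProduct

universe u

/-- the field generated over `K` by all roots of unity and by all `n`-th roots of all elements of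
`Γ`, for all positive integers `n` all of whose prime factors belong to `P₀` -/
noncomputable def smoothRootField (K : IntermediateField ℚ (AlgebraicClosure ℚ))
    (Γ : Subgroup (AlgebraicClosure ℚ)ˣ) (P₀ : Finset ℕ) :
    IntermediateField ℚ (AlgebraicClosure ℚ) :=
  K ⊔ IntermediateField.adjoin ℚ
    ({y | ∃ n : ℕ, 0 < n ∧ y ^ n = 1} ∪
      {y | ∃ n : ℕ, (0 < n ∧ ∀ q : ℕ, q.Prime → q ∣ n → q ∈ P₀) ∧
        ∃ g ∈ Γ, y ^ n = (g : AlgebraicClosure ℚ)})

/-- the field generated by all roots of unity of order composed of primes in `S` -/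
noncomputable def cyclotomicField (S : Set ℕ) : IntermediateField ℚ (AlgebraicClosure ℚ) :=
  IntermediateField.adjoin ℚ
    {y | ∃ m : ℕ, (0 < m ∧ ∀ p : ℕ, p.Prime → p ∣ m → p ∈ S) ∧ y ^ m = 1}

/-- `p` is a Wieferich prime to the base `a`: a prime with `p ∤ a` and `p² ∣ a^(p-1) - 1` -/
def IsWieferich (a p : ℕ) : Prop :=
  p.Prime ∧ ¬ p ∣ a ∧ (p : ℤ) ^ 2 ∣ (a : ℤ) ^ (p - 1) - 1

/-- the Wieferich primes in `P` are odd and the sum of `(log p) / p` over them is at most
`(log a) / 40` -/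
def FewWieferich (a : ℕ) (P : Set ℕ) : Prop :=
  ∀ F : Finset ℕ, (∀ p ∈ F, p ∈ P ∧ IsWieferich a p) →
    2 ∉ F ∧ ∑ p ∈ F, Real.log p / p ≤ Real.log a / 40

/-- the positive integers all of whose prime factors belong to `P` and which are not divisible by
the square of a Wieferich prime -/
def Exponents (a : ℕ) (P : Set ℕ) : Set ℕ :=
  {n | 0 < n ∧ ∀ p : ℕ, p.Prime → p ∣ n → p ∈ P ∧ (IsWieferich a p → ¬ p ^ 2 ∣ n)}

/-- `ρ n` is a compatible choice of `a^(1/n)`, for all `n` -/
def IsRootSystem (a : ℕ) (ρ : ℕ → AlgebraicClosure ℚ) : Prop :=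
  ρ 1 = a ∧ ∀ m n : ℕ, 0 < m → 0 < n → ρ (m * n) ^ m = ρ n

/-- the primes which belong to `P` or divide `a` -/
def primesOf (a : ℕ) (P : Set ℕ) : Set ℕ := {p | p.Prime ∧ (p ∈ P ∨ p ∣ a)}

/-- the primes of `T` divide no discriminant of a number field contained in `B` -/
def UnramifiedAt (B : IntermediateField ℚ (AlgebraicClosure ℚ)) (T : Set ℕ) : Prop :=
  ∀ F : IntermediateField ℚ (AlgebraicClosure ℚ), F ≤ B → ∀ _ : NumberField F,
    ∀ p ∈ T, ¬ (p : ℤ) ∣ NumberField.discr F

/-- `a₁, …, a_r` are squarefree integers at least `2`, there are few Wieferich primes to the base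
`a_i` in the set `P_i`, no prime belongs to two of the sets `P_i ∪ {p ∣ a_i}`, and `ρ i` is a
compatible choice of the roots of `a_i` -/
def Data {r : ℕ} (a : Fin r → ℕ) (P : Fin r → Set ℕ) (ρ : Fin r → ℕ → AlgebraicClosure ℚ) : Prop :=
  (∀ i, Squarefree (a i) ∧ 2 ≤ a i ∧ FewWieferich (a i) (P i) ∧ IsRootSystem (a i) (ρ i)) ∧
    ∀ i j, i ≠ j → Disjoint (primesOf (a i) (P i)) (primesOf (a j) (P j))

/-- the field generated over `B` by the roots `a_i^(1/n)`, `n ∈ Exponents a_i P_i` -/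
noncomputable def radicalField {r : ℕ} (B : IntermediateField ℚ (AlgebraicClosure ℚ))
    (a : Fin r → ℕ) (P : Fin r → Set ℕ) (ρ : Fin r → ℕ → AlgebraicClosure ℚ) :
    IntermediateField ℚ (AlgebraicClosure ℚ) :=
  B ⊔ IntermediateField.adjoin ℚ {y | ∃ i, ∃ n ∈ Exponents (a i) (P i), y = ρ i n}

/-- The term `γ_{k+1}(G)` of the lower central series (so `k = 1` gives `G'`). -/
abbrev gamma (G : Type*) [Group G] (k : ℕ) : Subgroup G := (⊤ : Subgroup G).lowerCentralSeries k

/-- Conjugation by `t` on the abelianization `N^ab` (written additively) of a normal subgroup `N`,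
as an endomorphism of the abelian group `N^ab`. -/
noncomputable def conjAb {G : Type*} [Group G] (N : Subgroup G) [N.Normal] (t : G) :
    Module.End ℤ (Additive (Abelianization N)) :=
  (MonoidHom.toAdditive
    (Abelianization.map (MulAut.conjNormal t : N ≃* N).toMonoidHom)).toIntLinearMap

/-- `z` is an algebraic unit, and not a root of unity -/
def IsFreeUnit (z : ℂ) : Prop :=
  z ≠ 0 ∧ IsIntegral ℤ z ∧ IsIntegral ℤ z⁻¹ ∧ ∀ m : ℕ, 0 < m → z ^ m ≠ 1

/-- the complex number `z` is a conjugate (over `ℚ`) of an element of `L` -/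
def ConjugateInto (L : IntermediateField ℚ (AlgebraicClosure ℚ)) (z : ℂ) : Prop :=
  ∃ β ∈ L, aeval z (minpoly ℚ β) = 0

/-- `ρ` is the exponential growth rate of `S` -/
def IsGrowthRate {G : Type u} [Group G] (S : Set G) (ρ : ℝ) : Prop :=
  Tendsto (fun n : ℕ => Real.log (Nat.card ↥(S ^ n)) / n) atTop (𝓝 ρ)

/-- the group `G = ⟨S⟩` is virtually nilpotent or has growth rate at least `b` for the generating set
`S` -/
def GapFor {G : Type u} [Group G] (S : Set G) (b : ℝ) : Prop :=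
  ∃ ρ : ℝ, IsGrowthRate S ρ ∧ (Group.IsVirtuallyNilpotent G ∨ b ≤ ρ)

/-- for `Γ = γ_{k+1}(H)`, the eigenvalues of the elements of `H` on `ℂ ⊗ Γ^ab`, as far as they are
units and not roots of unity, are conjugates of elements of `L` -/
def EigenvaluesIn (L : IntermediateField ℚ (AlgebraicClosure ℚ)) (H : Type u) [Group H] (k : ℕ) :
    Prop :=
  ∀ (t : H) (z : ℂ), Module.End.HasEigenvalue
    (LinearMap.baseChange ℂ (conjAb (gamma H k) t) :
      Module.End ℂ (ℂ ⊗[ℤ] Additive (Abelianization (gamma H k)))) z →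
    IsFreeUnit z → ConjugateInto L z

/-- `Γ = γ_{k+1}(H)` is nilpotent, or `H / [Γ, Γ]` is not virtually nilpotent -/
def Tail (H : Type u) [Group H] (k : ℕ) : Prop :=
  Group.IsNilpotent (gamma H k) ∨ ¬ Group.IsVirtuallyNilpotent (H ⧸ ⁅gamma H k, gamma H k⁆)

/-- `H` is isomorphic to a group of upper triangular complex matrices (of some size) with all
diagonal entries in `ι L`, for some embedding `ι` of `AlgebraicClosure ℚ` into `ℂ` -/
def Triangular (L : IntermediateField ℚ (AlgebraicClosure ℚ)) (H : Type u) [Group H] : Prop :=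
  ∃ (n : ℕ) (φ : H →* GL (Fin n) ℂ) (ι : AlgebraicClosure ℚ →+* ℂ), Function.Injective φ ∧
    ∀ h : H, (∀ i j : Fin n, j < i → φ h i j = 0) ∧ ∀ i : Fin n, ∃ β ∈ L, ι β = φ h i i

/-- The growth gap `c / (2 ^ k d)` for the groups `G` with a subgroup `H` of index at most `d` such
that `Γ = γ_{k+1}(H)` is nilpotent (or `H / [Γ, Γ]` is not virtually nilpotent) and the eigenvalues
of the elements of `H` on `ℂ ⊗ Γ^ab`, as far as they are units and not roots of unity, are conjugates
of elements of `L`; and the gap `c / (2 d)` for the groups `G` with a subgroup `H` of index at most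
`d` that is isomorphic to a group of upper triangular complex matrices (of any size) with all
diagonal entries in `ι L`. -/
def GrowthGap (c : ℝ) (L : IntermediateField ℚ (AlgebraicClosure ℚ)) : Prop :=
  ∀ (G : Type u) [Group G] (S : Set G), S.Finite → Subgroup.closure S = ⊤ →
    ∀ (d : ℕ) (H : Subgroup G), H.index ≠ 0 → H.index ≤ d →
    (∀ k : ℕ, 1 ≤ k → Tail H k → EigenvaluesIn L H k → GapFor S (c / (2 ^ k * d))) ∧
    (Triangular L H → GapFor S (c / (2 * d)))

open Pool.Agent.H58P (ht) in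
theorem gap_of_bound (L : IntermediateField ℚ (AlgebraicClosure ℚ)) {c : ℝ} (hc0 : 0 < c)
    (hc2 : c ≤ 1 / 2)
    (hL : ∀ β ∈ L, β ≠ 0 → (∀ n : ℕ, 0 < n → β ^ n ≠ 1) →
      c ≤ ((minpoly ℚ β).natDegree : ℝ) * ht β) : GrowthGap.{u} (c / 12) L := by
  have key : ∀ z : ℂ, IsFreeUnit z → ConjugateInto L z → ∃ β : AlgebraicClosure ℚ,
      aeval z (minpoly ℚ β) = 0 ∧ c ≤ ((minpoly ℚ β).natDegree : ℝ) * ht β := by
    rintro z ⟨hz0, hz1, hz2, hz3⟩ ⟨β, hβL, hβ⟩
    refine ⟨β, hβ, hL β hβL ?_ ?_⟩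
    · rintro rfl
      rw [minpoly.zero, aeval_X] at hβ
      exact hz0 hβ
    · intro n hn h
      apply hz3 n hn
      have h1 : minpoly ℚ β ∣ X ^ n - 1 := by
        apply minpoly.dvd
        rw [map_sub, map_pow, aeval_X, map_one, h, sub_self]
      obtain ⟨g, hg⟩ := h1
      have h2 : aeval z (X ^ n - 1 : ℚ[X]) = 0 := by rw [hg, map_mul, hβ, zero_mul]
      rwa [map_sub, map_pow, aeval_X, map_one, sub_eq_zero] at h2
  intro G _ S hfin hgen d H hH0 hHd
  constructor
  · intro k hk hnil heig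
    refine ⟨Pool.Agent.H746UG.rho S, Pool.Agent.H746UG.tendsto_rho S, ?_⟩
    rcases Pool.Agent.Y730.UG.gap_height hk S hfin hgen H hH0 hHd hnil hc0 hc2
      (fun t z hz h1 h2 h3 h4 => key z ⟨h3, h1, h2, h4⟩ (heig t z hz ⟨h3, h1, h2, h4⟩)) with h | h
    · exact Or.inl h
    · right
      rw [div_div, ← mul_assoc]
      exact h
  · rintro ⟨n, φ, ι, hφ, htri⟩
    have hB : ∀ h, φ h ∈ Pool.Agent.Y730.UG.Bor n ℂ := fun h =>
      Pool.Agent.Y730.UG.mem_Bor (htri h).1
    refine ⟨Pool.Agent.H746UG.rho S, Pool.Agent.H746UG.tendsto_rho S, ?_⟩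
    rcases Pool.Agent.Y730.UG.gap_height le_rfl S hfin hgen H hH0 hHd
      (Or.inl (Pool.Agent.Y730.UG.gam_nilp φ hB hφ)) hc0 hc2
      (fun t z hz h1 h2 h3 h4 => by
        choose β hβL hβ using (htri t).2
        obtain ⟨i, j, hij⟩ := Pool.Agent.Y730.UG.eig_tri φ hB hφ t ι β hβ hz
        exact key z ⟨h3, h1, h2, h4⟩ ⟨β i / β j, div_mem (hβL i) (hβL j), hij⟩) with h | h
    · exact Or.inl h
    · right
      rw [div_div, ← mul_assoc]
      rw [pow_one] at h
      exact h

open Pool.Agent.Y730 in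
/-- the definitions above agree with those of the library -/
theorem bound (K : IntermediateField ℚ (AlgebraicClosure ℚ)) (hK : FiniteDimensional ℚ K)
    (Γ : Subgroup (AlgebraicClosure ℚ)ˣ) (hΓ : Γ.FG) (P₀ : Finset ℕ) (hP₀ : ∀ p ∈ P₀, p.Prime) :
    ∃ c : ℝ, 0 < c ∧ c ≤ 1 / 2 ∧
      ∀ B : IntermediateField ℚ (AlgebraicClosure ℚ), B ≤ smoothRootField K Γ P₀ →
      (∀ g ∈ Γ, (g : AlgebraicClosure ℚ) ∈ B) →
      ∀ (r : ℕ) (a : Fin r → ℕ) (P : Fin r → Set ℕ) (ρ : Fin r → ℕ → AlgebraicClosure ℚ),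
        Data a P ρ → (∀ i, UnramifiedAt B (primesOf (a i) (P i))) →
        ∀ β ∈ radicalField B a P ρ, β ≠ 0 → (∀ n : ℕ, 0 < n → β ^ n ≠ 1) →
          c / 4000 ^ r ≤ ((minpoly ℚ β).natDegree : ℝ) * Pool.Agent.H58P.ht β :=
  UG.all_bound K hK Γ hΓ P₀ hP₀

/-- **Uniform growth gap for groups with eigenvalues in radical fields.**

(A) Let `K` be a number field, `Γ` a finitely generated subgroup of `ℚ̄*` and `P₀` a finite set of
primes. There is `c > 0` such that for every field `B` with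
`Γ ⊂ B ⊂ K(μ_∞, Γ^{1/n} : n a product of primes of P₀)`, all squarefree integers
`a₁, …, a_r ≥ 2` and all sets of primes `P₁, …, P_r`, finite or infinite, such that the sets
`T_i = P_i ∪ {p ∣ a_i}` are pairwise disjoint, the primes in all `T_i` are unramified in `B`, and
the Wieferich primes `p ∈ P_i` to the base `a_i` are odd and satisfy
`∑ (log p) / p ≤ (log a_i) / 40`, the growth gap `c / 4000^r` holds for the field `L` generated over
`B` by compatible roots `a_i^{1/n}` for all `i` and all `n` composed of primes of `P_i` and not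
divisible by the square of a Wieferich prime.

(B) There is an absolute constant `c > 0` such that this holds with `B` the field generated by all
roots of unity of order composed of the primes in a set `S` which is disjoint from all `T_i`. -/
theorem result :
    (∀ (K : IntermediateField ℚ (AlgebraicClosure ℚ)), FiniteDimensional ℚ K →
      ∀ (Γ : Subgroup (AlgebraicClosure ℚ)ˣ), Γ.FG →
      ∀ (P₀ : Finset ℕ), (∀ p ∈ P₀, p.Prime) →
      ∃ c : ℝ, 0 < c ∧
        ∀ B : IntermediateField ℚ (AlgebraicClosure ℚ), B ≤ smoothRootField K Γ P₀ →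
        (∀ g ∈ Γ, (g : AlgebraicClosure ℚ) ∈ B) →
        ∀ (r : ℕ) (a : Fin r → ℕ) (P : Fin r → Set ℕ) (ρ : Fin r → ℕ → AlgebraicClosure ℚ),
          Data a P ρ → (∀ i, UnramifiedAt B (primesOf (a i) (P i))) →
          GrowthGap.{u} (c / 4000 ^ r) (radicalField B a P ρ)) ∧
    (∃ c : ℝ, 0 < c ∧
      ∀ (r : ℕ) (a : Fin r → ℕ) (P : Fin r → Set ℕ) (ρ : Fin r → ℕ → AlgebraicClosure ℚ),
        Data a P ρ → ∀ S : Set ℕ, (∀ i, Disjoint S (primesOf (a i) (P i))) →
        GrowthGap.{u} (c / 4000 ^ r) (radicalField (cyclotomicField S) a P ρ)) := by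
  have hA : ∀ (K : IntermediateField ℚ (AlgebraicClosure ℚ)), FiniteDimensional ℚ K →
      ∀ (Γ : Subgroup (AlgebraicClosure ℚ)ˣ), Γ.FG →
      ∀ (P₀ : Finset ℕ), (∀ p ∈ P₀, p.Prime) →
      ∃ c : ℝ, 0 < c ∧
        ∀ B : IntermediateField ℚ (AlgebraicClosure ℚ), B ≤ smoothRootField K Γ P₀ →
        (∀ g ∈ Γ, (g : AlgebraicClosure ℚ) ∈ B) →
        ∀ (r : ℕ) (a : Fin r → ℕ) (P : Fin r → Set ℕ) (ρ : Fin r → ℕ → AlgebraicClosure ℚ),
          Data a P ρ → (∀ i, UnramifiedAt B (primesOf (a i) (P i))) →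
          GrowthGap.{u} (c / 4000 ^ r) (radicalField B a P ρ) := by
    intro K hK Γ hΓ P₀ hP₀
    obtain ⟨c, hc0, hc2, hc⟩ := bound K hK Γ hΓ P₀ hP₀
    refine ⟨c / 12, by positivity, fun B hB hΓB r a P ρ hdata hunr => ?_⟩
    have h4 : (1 : ℝ) ≤ 4000 ^ r := one_le_pow₀ (by norm_num)
    have h5 : c / 4000 ^ r ≤ 1 / 2 := by
      rw [div_le_iff₀ (by positivity)]
      nlinarith
    have h6 := gap_of_bound.{u} (radicalField B a P ρ) (c := c / 4000 ^ r) (by positivity) h5
      (hc B hB hΓB r a P ρ hdata hunr)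
    rwa [div_right_comm] at h6
  refine ⟨hA, ?_⟩
  obtain ⟨c, hc, h⟩ := hA ⊥ inferInstance ⊥
    ((Subgroup.fg_iff _).2 ⟨∅, Subgroup.closure_empty, Set.finite_empty⟩) ∅
    (fun p hp => absurd hp (Finset.notMem_empty p))
  refine ⟨c, hc, fun r a P ρ hdata S hS => ?_⟩
  refine h (cyclotomicField S) ?_ ?_ r a P ρ hdata ?_
  · refine le_trans ?_ le_sup_right
    rw [cyclotomicField, IntermediateField.adjoin_le_iff]
    rintro y ⟨m, hm, hy⟩
    exact IntermediateField.subset_adjoin _ _ (Or.inl ⟨m, hm.1, hy⟩)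
  · intro g hg
    rw [Subgroup.mem_bot] at hg
    rw [hg]
    exact one_mem _
  · intro i F hF hnf p hp hdvd
    exact Set.disjoint_left.1 (hS i)
      (Pool.Agent.Y730.RF.cyc_unram (hF := hnf) hF hp.1 hdvd) hp

end Pool.Agent.Results.MP_d69e80_al.RadicalEigenvalues
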